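import Pool.Agent.Helper2.LN.CrossLem

/-!
# LN6 (MP_730da0_ag): pull-back of a system along `Conf m → Conf k` (the far points `m, .., k-1` are fixed)
-/

namespace Pool.Agent.Helper70.L6

open Pool.Agent.Helper2.LN

/-- identity up to `c`, bounded by `c + 1/2`, strictly increasing -/
noncomputable def sq (c x : ℝ) : ℝ := min x c + (max (x - c) 0 / (1 + max (x - c) 0)) / 2

theorem sq_of_le {c x : ℝ} (h : x ≤ c) : sq c x = x := by
  unfold sq
  rw [min_eq_left h, max_eq_right (by linarith)]
  simp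

theorem sq_of_ge {c x : ℝ} (h : c ≤ x) : sq c x = c + ((x - c) / (1 + (x - c))) / 2 := by
  unfold sq
  rw [min_eq_right h, max_eq_left (by linarith)]

theorem sq_continuous (c : ℝ) : Continuous (sq c) := by
  unfold sq
  refine Continuous.add (by fun_prop) (Continuous.div_const (Continuous.div (by fun_prop) (by fun_prop) ?_) _)
  intro x
  have : 0 ≤ max (x - c) 0 := le_max_right _ _
  positivity

theorem sq_lt (c x : ℝ) : sq c x < c + 1 / 2 := by
  rcases le_total x c with h | h
  · rw [sq_of_le h]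
    linarith
  · rw [sq_of_ge h]
    have h1 : 0 < 1 + (x - c) := by linarith
    have h2 : (x - c) / (1 + (x - c)) < 1 := by
      rw [div_lt_one h1]
      linarith
    linarith

theorem sq_strictMono (c : ℝ) : StrictMono (sq c) := by
  intro x y hxy
  rcases le_total y c with h | h
  · rw [sq_of_le h, sq_of_le (by linarith)]
    exact hxy
  · rcases le_total x c with h' | h'
    · rw [sq_of_le h', sq_of_ge h]
      rcases h.eq_or_lt with h0 | h0
      · subst h0
        simpa using hxy
      · have h1 : 0 < 1 + (y - c) := by linarith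
        have h2 : 0 < (y - c) / (1 + (y - c)) := div_pos (by linarith) h1
        linarith
    · rw [sq_of_ge h', sq_of_ge h]
      have h1 : 0 < 1 + (x - c) := by linarith
      have h2 : 0 < 1 + (y - c) := by linarith
      have h3 : (x - c) / (1 + (x - c)) < (y - c) / (1 + (y - c)) := by
        rw [div_lt_div_iff₀ h1 h2]
        nlinarith
      linarith

/-- the same on real parts -/
noncomputable def sqc (c : ℝ) (z : ℂ) : ℂ := ⟨sq c z.re, z.im⟩

theorem sqc_continuous (c : ℝ) : Continuous (sqc c) := by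
  have h : sqc c = fun z : ℂ => ((sq c z.re : ℝ) : ℂ) + ((z.im : ℝ) : ℂ) * Complex.I := by
    funext z
    apply Complex.ext <;> simp [sqc]
  rw [h]
  have h1 := sq_continuous c
  fun_prop

theorem sqc_injective (c : ℝ) : Function.Injective (sqc c) := by
  intro z w h
  have h1 := congrArg Complex.re h
  have h2 := congrArg Complex.im h
  simp only [sqc] at h1 h2
  exact Complex.ext ((sq_strictMono c).injective h1) h2

theorem sqc_of_le {c : ℝ} {z : ℂ} (h : z.re ≤ c) : sqc c z = z := by
  apply Complex.ext <;> simp [sqc, sq_of_le h]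

/-- the configuration `(p_0, .., p_(m-1), m, .., k-1)` (the real parts of the `p_i` squeezed) -/
noncomputable def io (m k : ℕ) (p : Fin m → ℂ) : Fin k → ℂ := fun j =>
  if h : (j : ℕ) < m then sqc ((m : ℝ) - 1) (p ⟨j, h⟩) else ((j : ℕ) : ℂ)

theorem io_lt {m k : ℕ} (p : Fin m → ℂ) (j : Fin k) (h : (j : ℕ) < m) :
    io m k p j = sqc ((m : ℝ) - 1) (p ⟨j, h⟩) := dif_pos h

theorem io_ge {m k : ℕ} (p : Fin m → ℂ) (j : Fin k) (h : m ≤ (j : ℕ)) : io m k p j = ((j : ℕ) : ℂ) :=
  dif_neg (not_lt.2 h)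

theorem io_continuous (m k : ℕ) : Continuous (io m k) := by
  refine continuous_pi fun j => ?_
  by_cases h : (j : ℕ) < m
  · have : (fun p : Fin m → ℂ => io m k p j) = fun p => sqc ((m : ℝ) - 1) (p ⟨j, h⟩) := by
      funext p
      exact io_lt p j h
    rw [this]
    exact (sqc_continuous _).comp (continuous_apply _)
  · have : (fun p : Fin m → ℂ => io m k p j) = fun _ => ((j : ℕ) : ℂ) := by
      funext p
      exact io_ge p j (not_lt.1 h)
    rw [this]
    exact continuous_const

theorem io_re_lt {m k : ℕ} (p : Fin m → ℂ) (j : Fin k) (h : (j : ℕ) < m) :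
    (io m k p j).re < (m : ℝ) - 1 / 2 := by
  rw [io_lt p j h]
  have := sq_lt ((m : ℝ) - 1) (p ⟨j, h⟩).re
  simp only [sqc]
  linarith

theorem io_re_ge {m k : ℕ} (p : Fin m → ℂ) (j : Fin k) (h : m ≤ (j : ℕ)) :
    (m : ℝ) ≤ (io m k p j).re := by
  rw [io_ge p j h]
  simp only [Complex.natCast_re]
  exact_mod_cast h

/-- configurations with small real parts are not changed -/
theorem io_of_le {m k : ℕ} (p : Fin m → ℂ) (hp : ∀ i, (p i).re ≤ (m : ℝ) - 1) (j : Fin k) :
    io m k p j = if h : (j : ℕ) < m then p ⟨j, h⟩ else ((j : ℕ) : ℂ) := by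
  unfold io
  split_ifs with h
  · exact sqc_of_le (hp _)
  · rfl

theorem io_conf {m k : ℕ} {p : Fin m → ℂ} (hp : p ∈ Conf m) : io m k p ∈ Conf k := by
  intro i j hij
  by_cases hi : (i : ℕ) < m
  · by_cases hj : (j : ℕ) < m
    · rw [io_lt p i hi, io_lt p j hj] at hij
      have h1 := hp (sqc_injective _ hij)
      have h2 : (i : ℕ) = j := by simpa using h1
      exact Fin.ext h2
    · have h1 := io_re_lt p i hi
      have h2 := io_re_ge p j (not_lt.1 hj)
      rw [hij] at h1
      linarith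
  · by_cases hj : (j : ℕ) < m
    · have h1 := io_re_lt p j hj
      have h2 := io_re_ge p i (not_lt.1 hi)
      rw [hij] at h2
      linarith
    · rw [io_ge p i (not_lt.1 hi), io_ge p j (not_lt.1 hj)] at hij
      exact Fin.ext (by exact_mod_cast hij)

theorem io_base (m k : ℕ) : io m k (base m) = base k := by
  funext j
  unfold base
  rw [io_of_le]
  · split_ifs with h
    · rfl
    · rfl
  · intro i
    have : ((i : ℕ) : ℝ) + 1 ≤ m := by exact_mod_cast i.2
    simp only [Complex.natCast_re]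
    linarith

/-- order relations of the real parts -/
theorem io_re_iff {m k : ℕ} (p : Fin m → ℂ) (i j : Fin k) : (io m k p i).re < (io m k p j).re ↔
    ((∃ (hi : (i : ℕ) < m) (hj : (j : ℕ) < m), (p ⟨i, hi⟩).re < (p ⟨j, hj⟩).re) ∨
      ((i : ℕ) < m ∧ m ≤ (j : ℕ)) ∨ (m ≤ (i : ℕ) ∧ i < j)) := by
  by_cases hi : (i : ℕ) < m
  · by_cases hj : (j : ℕ) < m
    · rw [io_lt p i hi, io_lt p j hj]
      simp only [sqc, (sq_strictMono _).lt_iff_lt]
      constructor
      · intro h
        exact Or.inl ⟨hi, hj, h⟩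
      · rintro (⟨_, _, h⟩ | h | h)
        · exact h
        · exact absurd hj (not_lt.2 h.2)
        · exact absurd hi (not_lt.2 h.1)
    · have h1 := io_re_lt p i hi
      have h2 := io_re_ge p j (not_lt.1 hj)
      constructor
      · intro _
        exact Or.inr (Or.inl ⟨hi, not_lt.1 hj⟩)
      · intro _
        linarith
  · by_cases hj : (j : ℕ) < m
    · have h1 := io_re_lt p j hj
      have h2 := io_re_ge p i (not_lt.1 hi)
      constructor
      · intro h
        linarith
      · rintro (⟨h, _, _⟩ | h | h)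
        · exact absurd h hi
        · exact absurd h.1 hi
        · have : (i : ℕ) < j := h.2
          omega
    · rw [io_ge p i (not_lt.1 hi), io_ge p j (not_lt.1 hj)]
      simp only [Complex.natCast_re, Nat.cast_lt]
      constructor
      · intro h
        exact Or.inr (Or.inr ⟨not_lt.1 hi, h⟩)
      · rintro (⟨h, _, _⟩ | h | h)
        · exact absurd h hi
        · exact absurd h.1 hi
        · exact h.2

theorem io_gen {m k : ℕ} {p : Fin m → ℂ} (hp : p ∈ Gen m) : io m k p ∈ Gen k := by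
  intro i j hij
  by_contra hne
  have hij' : (io m k p i).re = (io m k p j).re := hij
  have key : ∀ i j : Fin k, i ≠ j → (io m k p i).re < (io m k p j).re ∨ (io m k p j).re < (io m k p i).re := by
    intro i j hne
    rw [io_re_iff, io_re_iff]
    have hne' : (i : ℕ) ≠ j := fun h => hne (Fin.ext h)
    by_cases hi : (i : ℕ) < m
    · by_cases hj : (j : ℕ) < m
      · have h1 : (p ⟨i, hi⟩).re ≠ (p ⟨j, hj⟩).re := by
          intro h
          have h2 := hp h
          exact hne' (by simpa using h2)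
        rcases lt_or_gt_of_ne h1 with h | h
        · exact Or.inl (Or.inl ⟨hi, hj, h⟩)
        · exact Or.inr (Or.inl ⟨hj, hi, h⟩)
      · exact Or.inl (Or.inr (Or.inl ⟨hi, not_lt.1 hj⟩))
    · by_cases hj : (j : ℕ) < m
      · exact Or.inr (Or.inr (Or.inl ⟨hj, not_lt.1 hi⟩))
      · rcases lt_or_gt_of_ne hne' with h | h
        · exact Or.inl (Or.inr (Or.inr ⟨not_lt.1 hi, h⟩))
        · exact Or.inr (Or.inr (Or.inr ⟨not_lt.1 hj, h⟩))
  rcases key i j hne with h | h <;> linarith

theorem io_ord {m k : ℕ} {p : Fin m → ℂ} (hp : p ∈ Ord m) : io m k p ∈ Ord k := by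
  intro i j hij
  rw [io_re_iff]
  have hij' : (i : ℕ) < j := hij
  by_cases hi : (i : ℕ) < m
  · by_cases hj : (j : ℕ) < m
    · exact Or.inl ⟨hi, hj, hp _ _ hij'⟩
    · exact Or.inr (Or.inl ⟨hi, not_lt.1 hj⟩)
  · exact Or.inr (Or.inr ⟨not_lt.1 hi, hij⟩)

/-- extension of permutations -/
noncomputable def exq {m k : ℕ} (hmk : m ≤ k) (π : Equiv.Perm (Fin m)) : Equiv.Perm (Fin k) :=
  π.extendDomain (Fin.castLEquiv hmk)

theorem exq_lt {m k : ℕ} (hmk : m ≤ k) (π : Equiv.Perm (Fin m)) (j : Fin k) (h : (j : ℕ) < m) :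
    exq hmk π j = Fin.castLE hmk (π ⟨j, h⟩) := by
  unfold exq
  rw [Equiv.Perm.extendDomain_apply_subtype π (Fin.castLEquiv hmk) h]
  rfl

theorem exq_ge {m k : ℕ} (hmk : m ≤ k) (π : Equiv.Perm (Fin m)) (j : Fin k) (h : m ≤ (j : ℕ)) :
    exq hmk π j = j := by
  unfold exq
  exact Equiv.Perm.extendDomain_apply_not_subtype π (Fin.castLEquiv hmk) (not_lt.2 h)

theorem io_perm {m k : ℕ} (hmk : m ≤ k) (p : Fin m → ℂ) (π : Equiv.Perm (Fin m)) :
    io m k (p ∘ π) = io m k p ∘ exq hmk π := by
  funext j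
  by_cases h : (j : ℕ) < m
  · have h2 : io m k (p ∘ π) j = sqc ((m : ℝ) - 1) (p (π ⟨j, h⟩)) := io_lt _ j h
    have h3 : (io m k p ∘ exq hmk π) j = io m k p (Fin.castLE hmk (π ⟨j, h⟩)) := by
      rw [Function.comp_apply, exq_lt hmk π j h]
    rw [h2, h3, io_lt p _ (by simp)]
    rfl
  · rw [io_ge _ j (not_lt.1 h), Function.comp_apply, exq_ge hmk π j (not_lt.1 h),
      io_ge p j (not_lt.1 h)]

variable {m k : ℕ} {W : Type} [TopologicalSpace W]

private theorem fin_eq (hmk : m ≤ k) {x : Fin k} {hx : (x : ℕ) < m} {l : Fin m}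
    (e : (⟨x, hx⟩ : Fin m) = l) : x = Fin.castLE hmk l := by
  subst e
  rfl

/-- the pull-back of a system -/
noncomputable def pull (hmk : m ≤ k) (S : Sys k W) : Sys m W where
  F := fun p => S.F (io m k p)
  perm := by
    intro p π
    show S.F (io m k (p ∘ π)) = S.F (io m k p)
    rw [io_perm hmk, S.perm]
  lift := by
    intro A _ _ _ γ hγ a₀ w₀ hw
    exact S.lift A ⟨fun a => io m k (γ a), (io_continuous m k).comp γ.continuous⟩
      (fun a => io_conf (hγ a)) a₀ w₀ hw
  uniq := by
    intro A _ _ γ hγ s s' hs hs' h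
    exact S.uniq A ⟨fun a => io m k (γ a), (io_continuous m k).comp γ.continuous⟩
      (fun a => io_conf (hγ a)) s s' hs hs' h

theorem pull_F (hmk : m ≤ k) (S : Sys k W) (p : Fin m → ℂ) : (pull hmk S).F p = S.F (io m k p) := rfl

theorem pull_base (hmk : m ≤ k) (S : Sys k W) : (pull hmk S).F (base m) = S.F (base k) := by
  rw [pull_F, io_base]

/-- the fibres over the base points are the same -/
noncomputable def tb (hmk : m ≤ k) (S : Sys k W) : (pull hmk S).F (base m) ≃ S.F (base k) :=
  Equiv.setCongr (pull_base hmk S)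

@[simp] theorem tb_val (hmk : m ≤ k) (S : Sys k W) (φ : (pull hmk S).F (base m)) :
    ((tb hmk S φ : S.F (base k)) : W) = φ := rfl

@[simp] theorem tb_symm_val (hmk : m ≤ k) (S : Sys k W) (φ : S.F (base k)) :
    (((tb hmk S).symm φ : (pull hmk S).F (base m)) : W) = φ := rfl

theorem srt_io (hmk : m ≤ k) (p : Fin m → ℂ) (hp : p ∈ Gen m) : srt (io m k p) = io m k (srt p) := by
  have h1 : io m k (srt p) = io m k p ∘ exq hmk (Tuple.sort fun i => (p i).re) := io_perm hmk p _
  have h2 : srt (io m k (srt p)) = io m k (srt p) := srt_of_Ord _ (io_ord (srt_mem p hp))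
  rw [← h2, h1, srt_perm _ (io_gen hp)]

/-- transport in the pull-back along a segment whose image stays in a convex set of configurations -/
theorem pull_T (hmk : m ≤ k) (S : Sys k W) (a c : Fin m → ℂ) (h : segment ℝ a c ⊆ Conf m)
    (D : Set (Fin k → ℂ)) (hD : Convex ℝ D) (hDC : D ⊆ Conf k)
    (hin : ∀ x ∈ segment ℝ a c, io m k x ∈ D) (w : W) (hw : w ∈ (pull hmk S).F a) :
    (pull hmk S).T a c w = S.T (io m k a) (io m k c) w := by
  obtain ⟨σ, h1, h2, h3⟩ := (pull hmk S).exists_sec (segment ℝ a c) (convex_segment a c) h a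
    (left_mem_segment ℝ a c) w hw
  have hseg : ∀ t : unitInterval, AffineMap.lineMap a c (t : ℝ) ∈ segment ℝ a c := fun t =>
    (convex_segment a c).lineMap_mem (left_mem_segment ℝ a c) (right_mem_segment ℝ a c) t.2
  have hcl : Continuous fun t : unitInterval => (AffineMap.lineMap a c (t : ℝ) : Fin m → ℂ) :=
    AffineMap.lineMap_continuous.comp continuous_subtype_val
  let γ : C(unitInterval, Fin k → ℂ) := ⟨fun t => io m k (AffineMap.lineMap a c (t : ℝ)),
    (io_continuous m k).comp hcl⟩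
  let s : C(unitInterval, W) := ⟨fun t => σ (AffineMap.lineMap a c (t : ℝ)),
    h1.comp_continuous hcl hseg⟩
  have h4 := S.T_along D hD hDC unitInterval γ (fun t => hin _ (hseg t)) s (fun t => h2 _ (hseg t)) 0 1
  have h5 := (pull hmk S).T_sec (segment ℝ a c) (convex_segment a c) h σ h1 h2 a c
    (left_mem_segment ℝ a c) (right_mem_segment ℝ a c)
  have e0 : γ 0 = io m k a := by simp [γ]
  have e1 : γ 1 = io m k c := by simp [γ]
  have s0 : s 0 = σ a := by simp [s]
  have s1 : s 1 = σ c := by simp [s]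
  rw [← h3, h5, ← s1, h4, e0, e1, s0]

theorem pull_val (hmk : m ≤ k) (S : Sys k W) (φ : (pull hmk S).F (base m)) (p : Fin m → ℂ)
    (hp : p ∈ Gen m) : (pull hmk S).val φ p = S.val (tb hmk S φ) (io m k p) := by
  unfold Sys.val
  have h1 : segment ℝ (base m) (srt p) ⊆ Ord m :=
    (convex_Ord m).segment_subset (base_mem_Ord m) (srt_mem p hp)
  rw [pull_T hmk S (base m) (srt p) (h1.trans ((Ord_subset_Gen m).trans (Gen_subset_Conf m))) (Ord k)
    (convex_Ord k) ((Ord_subset_Gen k).trans (Gen_subset_Conf k)) (fun x hx => io_ord (h1 hx)) φ φ.2,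
    io_base, srt_io hmk p hp]
  rfl

/-- the convex set of a crossing -/
private def VV (a : Fin k → ℂ) (l r : Fin k) : Set (Fin k → ℂ) :=
  {x | (∀ u v, (a u).re < (a v).re → ¬ (u = l ∧ v = r) → (x u).re < (x v).re) ∧ (x l).im < (x r).im}

private theorem comb_lt {x y x' y' s t : ℝ} (h : x < y) (h' : x' < y') (hs : 0 ≤ s) (ht : 0 ≤ t)
    (hst : s + t = 1) : s * x + t * x' < s * y + t * y' := by
  rcases hs.eq_or_lt with h0 | h0
  · subst h0
    have : t = 1 := by linarith
    subst this
    linarith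
  · have h1 : s * x < s * y := mul_lt_mul_of_pos_left h h0
    have h2 : t * x' ≤ t * y' := mul_le_mul_of_nonneg_left h'.le ht
    linarith

private theorem VV_convex (a : Fin k → ℂ) (l r : Fin k) : Convex ℝ (VV a l r) := by
  intro x hx y hy s t hs ht hst
  refine ⟨fun u v huv hne => ?_, ?_⟩
  · have h := comb_lt (hx.1 u v huv hne) (hy.1 u v huv hne) hs ht hst
    simpa using h
  · have h := comb_lt hx.2 hy.2 hs ht hst
    simpa using h

private theorem VV_conf (a : Fin k → ℂ) (ha : a ∈ Gen k) (l r : Fin k) : VV a l r ⊆ Conf k := by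
  intro x hx
  have key : ∀ u v, (a u).re < (a v).re → x u ≠ x v := by
    intro u v huv hh
    by_cases h : u = l ∧ v = r
    · have h1 := hx.2
      rw [← h.1, ← h.2, hh] at h1
      exact lt_irrefl _ h1
    · have h1 := hx.1 u v huv h
      rw [hh] at h1
      exact lt_irrefl _ h1
  intro u v hh
  rcases lt_trichotomy (a u).re (a v).re with h1 | h1 | h1
  · exact absurd hh (key u v h1)
  · exact ha h1
  · exact absurd hh.symm (key v u h1)

private theorem cross_mem {a c : Fin k → ℂ} {l r : Fin k} (h : Cross a c l r) : a ∈ VV a l r ∧ c ∈ VV a l r := by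
  refine ⟨⟨fun u v huv _ => huv, h.ima⟩, ⟨fun u v huv hne => ?_, h.imc⟩⟩
  by_cases h2 : u = r ∧ v = l
  · rw [h2.1, h2.2] at huv
    have := h.lt
    linarith
  · exact (h.same u v hne h2).1 huv

/-- a crossing is mapped to a crossing -/
theorem io_cross (hmk : m ≤ k) {a c : Fin m → ℂ} {l r : Fin m} (h : Cross a c l r) :
    Cross (io m k a) (io m k c) (Fin.castLE hmk l) (Fin.castLE hmk r) where
  gena := io_gen h.gena
  genc := io_gen h.genc
  lt := by
    rw [io_re_iff]
    exact Or.inl ⟨l.2, r.2, h.lt⟩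
  gt := by
    rw [io_re_iff]
    exact Or.inl ⟨r.2, l.2, h.gt⟩
  ima := by
    rw [io_lt a _ (by exact l.2), io_lt a _ (by exact r.2)]
    exact h.ima
  imc := by
    rw [io_lt c _ (by exact l.2), io_lt c _ (by exact r.2)]
    exact h.imc
  same := by
    intro x y h1 h2
    rw [io_re_iff, io_re_iff]
    refine or_congr ?_ Iff.rfl
    constructor
    · rintro ⟨hx, hy, h3⟩
      refine ⟨hx, hy, (h.same _ _ ?_ ?_).1 h3⟩
      · rintro ⟨e1, e2⟩
        exact h1 ⟨fin_eq hmk e1, fin_eq hmk e2⟩
      · rintro ⟨e1, e2⟩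
        exact h2 ⟨fin_eq hmk e1, fin_eq hmk e2⟩
    · rintro ⟨hx, hy, h3⟩
      refine ⟨hx, hy, (h.same _ _ ?_ ?_).2 h3⟩
      · rintro ⟨e1, e2⟩
        exact h1 ⟨fin_eq hmk e1, fin_eq hmk e2⟩
      · rintro ⟨e1, e2⟩
        exact h2 ⟨fin_eq hmk e1, fin_eq hmk e2⟩

theorem pos_io (hmk : m ≤ k) (a : Fin m → ℂ) (l : Fin m) : pos (io m k a) (Fin.castLE hmk l) = pos a l := by
  unfold pos
  symm
  refine Finset.card_bij (fun j _ => Fin.castLE hmk j) ?_ ?_ ?_
  · intro j hj
    simp only [Finset.mem_filter, Finset.mem_univ, true_and] at hj ⊢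
    rw [io_re_iff]
    exact Or.inl ⟨j.2, l.2, hj⟩
  · intro j _ j' _ h
    exact Fin.castLE_injective hmk h
  · intro j hj
    simp only [Finset.mem_filter, Finset.mem_univ, true_and] at hj
    rw [io_re_iff] at hj
    have hl : (l : ℕ) < m := l.2
    rcases hj with ⟨h1, h2, h3⟩ | ⟨_, h2⟩ | ⟨h1, h2⟩
    · refine ⟨⟨j, h1⟩, ?_, rfl⟩
      simp only [Finset.mem_filter, Finset.mem_univ, true_and]
      exact h3
    · simp only [Fin.val_castLE] at h2
      omega
    · have h3 : (j : ℕ) < (l : ℕ) := h2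
      omega

theorem pull_s (hmk : m ≤ k) (S : Sys k W) (i : ℕ) (hi : i + 1 < m) (φ : (pull hmk S).F (base m)) :
    tb hmk S ((pull hmk S).s i φ) = S.s i (tb hmk S φ) := by
  obtain ⟨a, c, l, r, h, hq, -⟩ := exists_cross (k := m) i hi
  have h1 := (pull hmk S).crossProp_s i hi a c l r h hq φ
  have h2 := S.crossProp_s i (by omega) _ _ _ _ (io_cross hmk h) ((pos_io hmk a l).trans hq) (tb hmk S φ)
  have hx : ∀ x ∈ segment ℝ a c, io m k x ∈ VV (io m k a) (Fin.castLE hmk l) (Fin.castLE hmk r) := by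
    intro x hx
    have hxV : x ∈ VV a l r := (VV_convex a l r).segment_subset (cross_mem h).1 (cross_mem h).2 hx
    refine ⟨fun u v huv hne => ?_, ?_⟩
    · rw [io_re_iff] at huv ⊢
      refine huv.imp ?_ id
      rintro ⟨h3, h4, h5⟩
      refine ⟨h3, h4, hxV.1 _ _ h5 ?_⟩
      rintro ⟨e1, e2⟩
      exact hne ⟨fin_eq hmk e1, fin_eq hmk e2⟩
    · rw [io_lt x _ (by exact l.2), io_lt x _ (by exact r.2)]
      exact hxV.2
  rw [pull_T hmk S a c (segment_cross a c l r h) _ (VV_convex _ _ _) (VV_conf _ (io_gen h.gena) _ _) hx _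
    ((pull hmk S).val_mem φ a h.gena), pull_val hmk S φ a h.gena, h2, pull_val hmk S _ c h.genc] at h1
  exact (S.val_inj _ _ _ (io_gen h.genc) h1).symm

theorem pull_A (hmk : m ≤ k) (S : Sys k W) (φ : (pull hmk S).F (base m)) :
    tb hmk S ((pull hmk S).A φ) = (((List.range (m - 1)).map S.s).prod) (tb hmk S φ) := by
  unfold Sys.A
  have key : ∀ (n : ℕ), n ≤ m - 1 → ∀ φ, tb hmk S ((((List.range n).map (pull hmk S).s).prod) φ) =
      (((List.range n).map S.s).prod) (tb hmk S φ) := by
    intro n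
    induction n with
    | zero => intro _ φ; simp
    | succ n ih =>
      intro hn φ
      rw [List.range_succ, List.map_append, List.prod_append, List.map_append, List.prod_append,
        Equiv.Perm.mul_apply, Equiv.Perm.mul_apply, ih (by omega)]
      simp only [List.map_cons, List.map_nil, List.prod_cons, List.prod_nil, mul_one]
      rw [pull_s hmk S n (by omega)]
  exact key (m - 1) le_rfl φ

end Pool.Agent.Helper70.L6
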